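import Mathlib

/-!
# Y696-QD: towers over subfields of cyclotomic fields
-/

set_option autoImplicit false

namespace Pool.Agent.Y674.QD

open Polynomial IntermediateField

/-- `-3` is not a square in a cyclotomic field of order prime to `3` -/
theorem no_sqrt {M : Type} [Field M] [NumberField M] (m : ℕ) [NeZero m]
    [IsCyclotomicExtension {m} ℚ M] (h3 : m.Coprime 3) (x : M) : x ^ 2 ≠ -3 := by
  intro hx
  have hζ := IsCyclotomicExtension.zeta_spec m ℚ M
  obtain ⟨w, hw⟩ : ∃ w : M, w = (-1 + x) / 2 := ⟨_, rfl⟩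
  have hw2 : w ^ 2 + w + 1 = 0 := by
    rw [hw]
    field_simp
    linear_combination hx
  have hw3 : IsPrimitiveRoot w 3 := by
    rw [← isRoot_cyclotomic_iff, cyclotomic_three]
    simpa [IsRoot.def] using hw2
  have h1 := hζ.lcm_totient_le_finrank hw3
    (cyclotomic.irreducible_rat (Nat.lcm_pos (NeZero.pos m) (by norm_num)))
  rw [IsCyclotomicExtension.finrank (n := m) M (cyclotomic.irreducible_rat (NeZero.pos m)),
    h3.lcm_eq_mul, Nat.totient_mul h3, Nat.totient_prime Nat.prime_three] at h1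
  have h2 : 0 < m.totient := Nat.totient_pos.2 (NeZero.pos m)
  omega

/-- the extension of `F` -/
theorem cycF {M L : Type} [Field M] [Field L] [Algebra ℚ M] [Algebra ℚ L] [Algebra M L]
    [IsScalarTower ℚ M L] (m : ℕ) [IsCyclotomicExtension {m} ℚ M]
    [IsCyclotomicExtension {3} M L] (F : IntermediateField ℚ L) {ω : L}
    (hω : IsPrimitiveRoot ω 3) (hF : ω ∈ F) : IsCyclotomicExtension {m} F L := by
  have hcyc : IsCyclotomicExtension ({m} ∪ {3}) ℚ L :=
    IsCyclotomicExtension.trans {m} {3} ℚ M L (algebraMap M L).injective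
  have h2 := (IsCyclotomicExtension.iff_adjoin_eq_top ({m} ∪ {3}) ℚ L).1 hcyc
  rw [IsCyclotomicExtension.iff_adjoin_eq_top]
  refine ⟨fun n hn hn0 => h2.1 n (Or.inl hn) hn0, ?_⟩
  rw [eq_top_iff]
  intro x _
  have h1 : Algebra.adjoin ℚ {b : L | ∃ n ∈ ({m} ∪ {3} : Set ℕ), n ≠ 0 ∧ b ^ n = 1} ≤
      (Algebra.adjoin F {b : L | ∃ n ∈ ({m} : Set ℕ), n ≠ 0 ∧ b ^ n = 1}).restrictScalars ℚ := by
    rw [Algebra.adjoin_le_iff]
    rintro b ⟨n, hn, hn0, hb⟩
    rcases hn with hn | hn
    · exact Algebra.subset_adjoin ⟨n, hn, hn0, hb⟩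
    · rw [Set.mem_singleton_iff] at hn
      subst hn
      have hbF : b ∈ F := by
        obtain ⟨k, _, hk⟩ := hω.eq_pow_of_pow_eq_one hb
        rw [← hk]
        exact pow_mem hF k
      exact (Algebra.adjoin F {b : L | ∃ n ∈ ({m} : Set ℕ), n ≠ 0 ∧ b ^ n = 1}).algebraMap_mem
        (⟨b, hbF⟩ : F)
  rw [h2.2] at h1
  exact h1 Algebra.mem_top

/-- the quadratic extension -/
theorem quad {k L : Type} [Field k] [Field L] [CharZero k] [Algebra k L] {ω : L}
    (hω : IsPrimitiveRoot ω 3) (hns : ∀ x : k, x ^ 2 ≠ -3) : Module.finrank k k⟮ω⟯ = 2 := by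
  have hint : IsIntegral k ω := (hω.isIntegral (by norm_num)).tower_top
  have hirr : Irreducible (cyclotomic 3 k) := by
    have hd : (cyclotomic 3 k).natDegree = 2 := by
      rw [natDegree_cyclotomic, Nat.totient_prime Nat.prime_three]
    rw [irreducible_iff_roots_eq_zero_of_degree_le_three (by rw [hd]) (by rw [hd]; norm_num)]
    rw [Multiset.eq_zero_iff_forall_notMem]
    intro r hr
    have h1 := isRoot_of_mem_roots hr
    rw [cyclotomic_three, IsRoot.def] at h1
    simp only [eval_add, eval_pow, eval_X, eval_one] at h1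
    apply hns (2 * r + 1)
    linear_combination 4 * h1
  rw [adjoin.finrank hint, ← hω.minpoly_eq_cyclotomic_of_irreducible hirr, natDegree_cyclotomic,
    Nat.totient_prime Nat.prime_three]

theorem jobD {M : Type} [Field M] [NumberField M] (m : ℕ) [NeZero m]
    [IsCyclotomicExtension {m} ℚ M] (h3 : m.Coprime 3) (K₀ : IntermediateField ℚ M) :
    (∀ x : K₀, x ^ 2 ≠ -3) ∧
    ∃ (F K L : Type) (_ : Field F) (_ : NumberField F) (_ : IsCyclotomicExtension {3} ℚ F)
      (_ : Field K) (_ : NumberField K) (_ : Field L) (_ : NumberField L) (_ : Algebra F K)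
      (_ : Algebra K L) (_ : Algebra F L) (_ : IsScalarTower F K L) (_ : IsGalois F K)
      (_ : IsCyclotomicExtension {m} F L) (_ : Algebra K₀ K), Module.finrank K₀ K = 2 := by
  have hns : ∀ x : K₀, x ^ 2 ≠ -3 := by
    intro x hx
    apply no_sqrt m h3 (x : M)
    have h := congrArg (algebraMap K₀ M) hx
    rw [map_pow, map_neg, map_ofNat] at h
    exact h
  refine ⟨hns, ?_⟩
  let L := CyclotomicField 3 M
  obtain ⟨ω, hω⟩ : ∃ ω : L, IsPrimitiveRoot ω 3 :=
    ⟨_, IsCyclotomicExtension.zeta_spec 3 M L⟩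
  -- the fields
  let F : IntermediateField ℚ L := ℚ⟮ω⟯
  let K : IntermediateField K₀ L := K₀⟮ω⟯
  have hFK : ∀ x : L, x ∈ F → x ∈ K := by
    have h1 : F ≤ K.restrictScalars ℚ := by
      rw [adjoin_simple_le_iff]
      exact mem_adjoin_simple_self K₀ ω
    exact fun x hx => h1 hx
  let i : F →+* K := RingHom.codRestrict (algebraMap F L) K (fun x => hFK _ x.2)
  let algFK : Algebra F K := i.toAlgebra
  have : IsScalarTower F K L := IsScalarTower.of_algebraMap_eq (fun _ => rfl)
  have hF3 : IsCyclotomicExtension {3} ℚ F :=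
    hω.intermediateField_adjoin_isCyclotomicExtension ℚ
  have hmF : IsCyclotomicExtension {m} F L :=
    cycF (M := M) m F hω (mem_adjoin_simple_self ℚ ω)
  have : IsAbelianGalois F L := IsCyclotomicExtension.isAbelianGalois {m} F L
  have : IsAbelianGalois F K := IsAbelianGalois.tower_bot F K L
  have hfin : Module.finrank K₀ K = 2 := quad hω hns
  refine ⟨F, K, L, inferInstance, inferInstance, ?_, inferInstance, ?_, inferInstance,
    inferInstance, algFK, inferInstance, inferInstance, inferInstance, inferInstance, hmF,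
    inferInstance, hfin⟩
  · exact hF3
  · infer_instance

end Pool.Agent.Y674.QD
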